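import Pool.Agent.Y843.AC.Stm
import Pool.Agent.Y843.HS.PartA

/-!
Project AC (helper843), job UPG: upper bound for the number of the patterns with two parameters
-/

set_option autoImplicit false

namespace Pool.Agent.Y71.AC

open Finset
open Pool.Agent.Y843.HS Pool.Agent.Y843.AC

/-- sums of a function over the values of an injective map -/
theorem sum_inj_le {D : ℕ} {S : Finset ℤ} (g : ℕ → ℤ) (hg : ∀ x y, g x = g y → x = y)
    (hS : ∀ d ∈ Icc 1 D, g d ∈ S) (F : ℤ → ℝ) (hF : ∀ h, 0 ≤ F h) :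
    ∑ d ∈ Icc 1 D, F (g d) ≤ ∑ h ∈ S, F h := by
  classical
  rw [← sum_image (f := F) (g := g) (fun x _ y _ h => hg x y h)]
  apply sum_le_sum_of_subset_of_nonneg
  · intro h hh
    obtain ⟨d, hd, rfl⟩ := mem_image.1 hh
    exact hS d hd
  · intro h _ _
    exact hF h

/-- the sum over the values of a linear form -/
theorem sum_form_le {D M₀ : ℕ} {e f : ℤ} (hef : ¬ (e = 0 ∧ f = 0)) (he : |e| ≤ M₀)
    (hf : |f| ≤ M₀) (F : ℤ → ℝ) (hF : ∀ h, 0 ≤ F h) :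
    ∑ d ∈ Icc 1 D, ∑ d' ∈ Icc 1 D, F (e * (d : ℤ) + f * (d' : ℤ)) ≤
      D * ∑ h ∈ Ioo (-((2 * M₀ * D + 1 : ℕ) : ℤ)) ((2 * M₀ * D + 1 : ℕ) : ℤ), F h := by
  have hmem : ∀ d ∈ Icc 1 D, ∀ d' ∈ Icc 1 D, e * (d : ℤ) + f * (d' : ℤ) ∈
      Ioo (-((2 * M₀ * D + 1 : ℕ) : ℤ)) ((2 * M₀ * D + 1 : ℕ) : ℤ) := by
    intro d hd d' hd'
    rw [mem_Icc] at hd hd'
    have h2 : |e| * (d : ℤ) ≤ M₀ * D :=
      mul_le_mul he (by exact_mod_cast hd.2) (Int.natCast_nonneg _) (Int.natCast_nonneg _)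
    have h3 : |f| * (d' : ℤ) ≤ M₀ * D :=
      mul_le_mul hf (by exact_mod_cast hd'.2) (Int.natCast_nonneg _) (Int.natCast_nonneg _)
    have h1 : |e * (d : ℤ) + f * (d' : ℤ)| ≤ 2 * M₀ * D := by
      calc |e * (d : ℤ) + f * (d' : ℤ)| ≤ |e * (d : ℤ)| + |f * (d' : ℤ)| := abs_add_le _ _
        _ = |e| * d + |f| * d' := by rw [abs_mul, abs_mul, Nat.abs_cast, Nat.abs_cast]
        _ ≤ M₀ * D + M₀ * D := add_le_add h2 h3
        _ = 2 * M₀ * D := by ring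
    rw [mem_Ioo]
    have h4 := abs_le.1 h1
    push_cast
    constructor <;> linarith
  set S := Ioo (-((2 * M₀ * D + 1 : ℕ) : ℤ)) ((2 * M₀ * D + 1 : ℕ) : ℤ) with hS
  have hc : ∑ _d ∈ Icc 1 D, ∑ h ∈ S, F h = D * ∑ h ∈ S, F h := by
    rw [sum_const, Nat.card_Icc, nsmul_eq_mul, Nat.add_sub_cancel]
  by_cases hf0 : f = 0
  · have he0 : e ≠ 0 := fun h => hef ⟨h, hf0⟩
    rw [sum_comm, ← hc]
    refine sum_le_sum fun d' hd' => ?_
    refine sum_inj_le (fun d => e * (d : ℤ) + f * (d' : ℤ)) ?_ (fun d hd => hmem d hd d' hd') F hF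
    intro x y hxy
    have h1 : e * (x : ℤ) = e * (y : ℤ) := by
      have h2 : e * (x : ℤ) + f * (d' : ℤ) = e * (y : ℤ) + f * (d' : ℤ) := hxy
      linarith
    exact_mod_cast mul_left_cancel₀ he0 h1
  · rw [← hc]
    refine sum_le_sum fun d hd => ?_
    refine sum_inj_le (fun d' => e * (d : ℤ) + f * (d' : ℤ)) ?_ (fun d' hd' => hmem d hd d' hd') F hF
    intro x y hxy
    have h1 : f * (x : ℤ) = f * (y : ℤ) := by
      have h2 : e * (d : ℤ) + f * (x : ℤ) = e * (d : ℤ) + f * (y : ℤ) := hxy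
      linarith
    exact_mod_cast mul_left_cancel₀ hf0 h1

theorem VV_nonneg {r a b : ℕ} {Z : ℕ → Finset ℕ} (hZ : Sv r a b Z) : 0 ≤ VV Z a b :=
  prod_nonneg fun p hp => one_sub_nonneg (hZ p hp).2

/-- the count for one pair of differences -/
theorem pair_count {CF r m b s J A X : ℕ} (hCF : FLc CF) (hb : CF * (m * r + 1) ≤ b)
    (hs : b ≤ s) {K : ℕ} {Z : ℕ → Finset ℕ} (hZ : Sv r s (2 ^ 2 ^ J) Z) {u : Fin m → ℕ}
    (hloc : ∏ p ∈ Pr s (2 ^ 2 ^ J), (1 - ((Om Z u p).card : ℝ) / p) ≤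
      VV Z s (2 ^ 2 ^ J) ^ m * Coll K Z s (2 ^ 2 ^ J) u)
    (herr : ((2 : ℝ) ^ 2 ^ J) ^ (CF * b) ≤ X * VV Z s (2 ^ 2 ^ J) ^ m) :
    ((BB (Om Z u) s (2 ^ 2 ^ J) 1 0 A X).card : ℝ) ≤
      3 * X * VV Z s (2 ^ 2 ^ J) ^ m * Coll K Z s (2 ^ 2 ^ J) u := by
  have h1 := hCF (m * r) b s J hb (hb.trans hs) (Om Z u) (Sv_Om hZ u) 1 0 A X le_rfl
    (fun p hp h => (Pr_prime hp).one_lt.ne' (Nat.dvd_one.1 h))
  set P := ∏ p ∈ Pr s (2 ^ 2 ^ J), (1 - ((Om Z u p).card : ℝ) / p) with hP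
  have hP0 : 0 ≤ P := prod_nonneg fun p hp => one_sub_nonneg ((Sv_Om hZ u) p hp).2
  have hV0 := VV_nonneg hZ
  have hC1 := one_le_Coll (Z := Z) (s := s) (R := 2 ^ 2 ^ J) K u
  set V := VV Z s (2 ^ 2 ^ J) ^ m with hV
  have hVm : 0 ≤ V := pow_nonneg hV0 m
  set Co := Coll K Z s (2 ^ 2 ^ J) u with hCo
  have hX : (0 : ℝ) ≤ X := Nat.cast_nonneg X
  rw [Nat.cast_one, div_one] at h1
  have h2 := (abs_le.1 h1).2
  have h3 : (1 / 2 : ℝ) ^ b ≤ 1 := pow_le_one₀ (by norm_num) (by norm_num)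
  have h4 : (1 / 2 : ℝ) ^ b * (X * P) ≤ X * P := mul_le_of_le_one_left (by positivity) h3
  have h5 : X * P ≤ X * (V * Co) := mul_le_mul_of_nonneg_left hloc hX
  have h6 : X * V ≤ X * V * Co := le_mul_of_one_le_right (by positivity) hC1
  linarith

/-- the average of the collision factor -/
theorem sum_coll {m K D M₀ s R : ℕ} {Z : ℕ → Finset ℕ} (α β : Fin m → ℕ)
    (hαβ : ∀ i j, i ≠ j → (α i, β i) ≠ (α j, β j)) (hM : ∀ i, α i ≤ M₀ ∧ β i ≤ M₀)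
    (hD : 1 ≤ D) (hM1 : 1 ≤ M₀)
    (hG : (∑ h ∈ Ioo (-((2 * M₀ * D + 1 : ℕ) : ℤ)) ((2 * M₀ * D + 1 : ℕ) : ℤ),
      (Gd (m ^ 2 * K * (1 + K) ^ m ^ 2) Z s R h - 1)) / ((2 * M₀ * D + 1 : ℕ) : ℝ) ≤ 1) :
    ∑ d ∈ Icc 1 D, ∑ d' ∈ Icc 1 D, Coll K Z s R (fun i => α i * d + β i * d') ≤
      (1 + 3 * (m : ℝ) ^ 2 * M₀) * (D : ℝ) ^ 2 := by
  classical
  set G : ℤ → ℝ := fun h => Gd (m ^ 2 * K * (1 + K) ^ m ^ 2) Z s R h - 1 with hGd
  have hG0 : ∀ h, 0 ≤ G h := fun h => by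
    have := one_le_Gd (Z := Z) (s := s) (R := R) (m ^ 2 * K * (1 + K) ^ m ^ 2) h
    rw [hGd]
    linarith
  have hD0 : (1 : ℝ) ≤ D := by exact_mod_cast hD
  have hM0 : (1 : ℝ) ≤ M₀ := by exact_mod_cast hM1
  have hN : ∑ h ∈ Ioo (-((2 * M₀ * D + 1 : ℕ) : ℤ)) ((2 * M₀ * D + 1 : ℕ) : ℤ), G h ≤
      3 * M₀ * D := by
    rw [div_le_one (by positivity)] at hG
    refine hG.trans ?_
    push_cast
    nlinarith
  have h1 : ∀ d d' : ℕ, Coll K Z s R (fun i => α i * d + β i * d') ≤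
      1 + ∑ l ∈ (univ : Finset (Fin m)).offDiag,
        G (((α l.1 : ℤ) - α l.2) * (d : ℤ) + ((β l.1 : ℤ) - β l.2) * (d' : ℤ)) := by
    intro d d'
    have h2 := Coll_sub_le (Z := Z) (s := s) (R := R) K (fun i => α i * d + β i * d')
    have h3 : ∑ l ∈ (univ : Finset (Fin m)).offDiag,
        (Gd (m ^ 2 * K * (1 + K) ^ m ^ 2) Z s R (((α l.1 * d + β l.1 * d' : ℕ) : ℤ) -
          ((α l.2 * d + β l.2 * d' : ℕ) : ℤ)) - 1) =
        ∑ l ∈ (univ : Finset (Fin m)).offDiag,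
        G (((α l.1 : ℤ) - α l.2) * (d : ℤ) + ((β l.1 : ℤ) - β l.2) * (d' : ℤ)) := by
      refine sum_congr rfl fun l _ => ?_
      rw [hGd]
      beta_reduce
      congr 2
      push_cast
      ring
    rw [h3] at h2
    linarith
  have h4 : ∀ l ∈ (univ : Finset (Fin m)).offDiag,
      ∑ d ∈ Icc 1 D, ∑ d' ∈ Icc 1 D,
        G (((α l.1 : ℤ) - α l.2) * (d : ℤ) + ((β l.1 : ℤ) - β l.2) * (d' : ℤ)) ≤
        3 * M₀ * (D : ℝ) ^ 2 := by
    intro l hl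
    rw [mem_offDiag] at hl
    have h5 := hαβ l.1 l.2 hl.2.2
    have ha := hM l.1
    have hb := hM l.2
    refine (sum_form_le (D := D) (M₀ := M₀) (e := (α l.1 : ℤ) - α l.2) (f := (β l.1 : ℤ) - β l.2)
      ?_ ?_ ?_ G hG0).trans ?_
    · rintro ⟨h6, h7⟩
      apply h5
      rw [Prod.mk.injEq]
      constructor <;> omega
    · rw [abs_le]
      constructor <;> omega
    · rw [abs_le]
      constructor <;> omega
    · calc (D : ℝ) * ∑ h ∈ Ioo (-((2 * M₀ * D + 1 : ℕ) : ℤ)) ((2 * M₀ * D + 1 : ℕ) : ℤ), G h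
          ≤ D * (3 * M₀ * D) := mul_le_mul_of_nonneg_left hN (by positivity)
        _ = _ := by ring
  calc ∑ d ∈ Icc 1 D, ∑ d' ∈ Icc 1 D, Coll K Z s R (fun i => α i * d + β i * d')
      ≤ ∑ d ∈ Icc 1 D, ∑ d' ∈ Icc 1 D, (1 + ∑ l ∈ (univ : Finset (Fin m)).offDiag,
        G (((α l.1 : ℤ) - α l.2) * (d : ℤ) + ((β l.1 : ℤ) - β l.2) * (d' : ℤ))) :=
        sum_le_sum fun d _ => sum_le_sum fun d' _ => h1 d d'
    _ = (D : ℝ) ^ 2 + ∑ l ∈ (univ : Finset (Fin m)).offDiag, ∑ d ∈ Icc 1 D, ∑ d' ∈ Icc 1 D,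
        G (((α l.1 : ℤ) - α l.2) * (d : ℤ) + ((β l.1 : ℤ) - β l.2) * (d' : ℤ)) := by
        simp_rw [sum_add_distrib, sum_const, Nat.card_Icc, nsmul_eq_mul, Nat.add_sub_cancel]
        congr 1
        · ring
        · rw [sum_congr rfl (fun d _ => sum_comm), sum_comm]
    _ ≤ (D : ℝ) ^ 2 + ∑ l ∈ (univ : Finset (Fin m)).offDiag, 3 * M₀ * (D : ℝ) ^ 2 := by
        gcongr with l hl
        exact h4 l hl
    _ ≤ (D : ℝ) ^ 2 + (m : ℝ) ^ 2 * (3 * M₀ * (D : ℝ) ^ 2) := by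
        rw [sum_const, nsmul_eq_mul]
        have : (univ : Finset (Fin m)).offDiag.card ≤ m ^ 2 := by
          rw [offDiag_card, card_univ, Fintype.card_fin, pow_two]
          exact Nat.sub_le _ _
        have h6 : (((univ : Finset (Fin m)).offDiag.card : ℕ) : ℝ) ≤ (m : ℝ) ^ 2 := by
          exact_mod_cast this
        gcongr
    _ = _ := by ring

open Classical in
/-- the triples are counted by the sifted sets -/
theorem card_le {m D s R A X : ℕ} (α β : Fin m → ℕ) (Z : ℕ → Finset ℕ)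
    (T : Finset (ℕ × ℕ × ℕ)) (hT : ∀ t ∈ T, t.1 ∈ Ioc A (A + X) ∧ t.2.1 ∈ Icc 1 D ∧
      t.2.2 ∈ Icc 1 D ∧ ∀ i, ∀ p ∈ Pr s R, (t.1 + (α i * t.2.1 + β i * t.2.2)) % p ∉ Z p) :
    (T.card : ℝ) ≤ ∑ d ∈ Icc 1 D, ∑ d' ∈ Icc 1 D,
      ((BB (Om Z fun i => α i * d + β i * d') s R 1 0 A X).card : ℝ) := by
  have h1 : T ⊆ (Icc 1 D ×ˢ Icc 1 D).biUnion (fun q =>
      (BB (Om Z fun i => α i * q.1 + β i * q.2) s R 1 0 A X).image (fun x => (x, q.1, q.2))) := by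
    intro t ht
    obtain ⟨h2, h3, h4, h5⟩ := hT t ht
    rw [mem_biUnion]
    refine ⟨(t.2.1, t.2.2), mem_product.2 ⟨h3, h4⟩, ?_⟩
    rw [mem_image]
    refine ⟨t.1, ?_, rfl⟩
    unfold BB
    rw [mem_filter]
    refine ⟨h2, by rw [Nat.mod_one, Nat.mod_one], fun p hp => ?_⟩
    rw [mem_Om_iff Z _ (Pr_prime hp).pos]
    push Not
    exact fun i => h5 i p hp
  have h6 : T.card ≤ ∑ q ∈ Icc 1 D ×ˢ Icc 1 D,
      (BB (Om Z fun i => α i * q.1 + β i * q.2) s R 1 0 A X).card :=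
    (card_le_card h1).trans (card_biUnion_le.trans (sum_le_sum fun q _ => card_image_le))
  rw [sum_product] at h6
  exact_mod_cast h6

theorem upg (hF : S_FLC) (hL : S_LOC) (hG : S_GAV) (hD : S_DEN) : S_UPG := by
  classical
  intro r m κ hκ α β hαβ
  obtain ⟨CF, hCF1, hCF⟩ := FLc_of hF
  obtain ⟨K, hK⟩ := hL r m
  obtain ⟨s₀, hs₀⟩ := hK 1 one_pos
  obtain ⟨s₂, B₀, X₁, hX₁⟩ := hG r (m ^ 2 * K * (1 + K) ^ m ^ 2) 1 one_pos
  set b := CF * (m * r + 1) with hb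
  set s := max (max s₀ s₂) (max b (2 * r + 3)) with hs
  have hs1 : s₀ ≤ s := (le_max_left _ _).trans (le_max_left _ _)
  have hs2 : s₂ ≤ s := (le_max_right _ _).trans (le_max_left _ _)
  have hs3 : b ≤ s := (le_max_left _ _).trans (le_max_right _ _)
  have hs4 : 2 * r + 3 ≤ s := (le_max_right _ _).trans (le_max_right _ _)
  set C2 := CF * b + 1 + ⌈1 / κ⌉₊ with hC2
  set L := 2 * C2 * ⌈κ⌉₊ with hLd
  obtain ⟨cD, hcD, R₀, hR₀⟩ := hD r L
  obtain ⟨cM, hcM1, hcM⟩ := EE_log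
  obtain ⟨R₁, hR₁⟩ := log_pow_le (2 * r * m) (cM ^ (2 * r * m))
  set J₂ := s + R₀ + R₁ with hJ₂
  obtain ⟨X₂, hX₂⟩ := log_ge 1
  set M₀ := 1 + ∑ i, (α i + β i) with hM₀
  have hM : ∀ i, α i ≤ M₀ ∧ β i ≤ M₀ := by
    intro i
    have h1 := single_le_sum (f := fun i => α i + β i) (fun i _ => Nat.zero_le _) (mem_univ i)
    have h2 : α i + β i ≤ ∑ i, (α i + β i) := h1
    omega
  set c₀ : ℝ := ∏ p ∈ Pr 0 s, (1 : ℝ) / p with hc₀
  have hc0 : 0 < c₀ := prod_pos fun p hp => by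
    have := (Pr_prime hp).pos
    positivity
  refine ⟨3 * (1 + 3 * (m : ℝ) ^ 2 * M₀) / (c₀ * cD) ^ m, by positivity, B₀,
    max (max X₁ X₂) ((2 ^ 2 ^ J₂) ^ C2), ?_⟩
  intro X A D hX hDX Z hZ T hT
  have hXX₁ : X₁ ≤ X := (le_max_left _ _).trans ((le_max_left _ _).trans hX)
  have hXX₂ := hX₂ X ((le_max_right _ _).trans ((le_max_left _ _).trans hX))
  have hXX₄ : (2 ^ 2 ^ J₂) ^ C2 ≤ X := (le_max_right _ _).trans hX
  -- the level
  obtain ⟨J, hJ2, hJX, hJX'⟩ := exists_cross (P := fun J => (2 ^ 2 ^ J) ^ C2 ≤ X)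
    (a := J₂) (b := J₂ + X) (Nat.le_add_right _ _) hXX₄ (by
      rw [not_le]
      calc X < 2 ^ X := Nat.lt_two_pow_self
        _ ≤ 2 ^ 2 ^ (J₂ + X) := Nat.pow_le_pow_right (by norm_num)
            ((Nat.le_add_left _ _).trans Nat.lt_two_pow_self.le)
        _ = (2 ^ 2 ^ (J₂ + X)) ^ 1 := (pow_one _).symm
        _ ≤ (2 ^ 2 ^ (J₂ + X)) ^ C2 := Nat.pow_le_pow_right (by positivity) (by omega))
  rw [not_le] at hJX'
  set R := 2 ^ 2 ^ J with hR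
  have hR1 : 1 ≤ R := Nat.one_le_two_pow
  have hR10 : (1 : ℝ) ≤ R := by exact_mod_cast hR1
  have hXR : X < R ^ (2 * C2) := by
    have : 2 ^ 2 ^ (J + 1) = R ^ 2 := by rw [hR, ← pow_mul, pow_succ]
    rw [this, ← pow_mul] at hJX'
    exact hJX'
  have hX1 : 1 ≤ X := (Nat.one_le_pow _ _ hR1).trans hJX
  have hX0 : (0 : ℝ) < X := by exact_mod_cast hX1
  have hX10 : (1 : ℝ) ≤ X := by exact_mod_cast hX1
  have hRX : R ≤ X := by
    refine le_trans ?_ hJX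
    calc R = R ^ 1 := (pow_one R).symm
      _ ≤ R ^ C2 := Nat.pow_le_pow_right hR1 (by omega)
  set Y := ⌊(X : ℝ) ^ κ⌋₊ with hY
  have hC2pos : (0 : ℝ) < C2 := by
    have : 0 < C2 := by omega
    exact_mod_cast this
  have hRY : R ≤ Y := by
    rw [hY]
    apply Nat.le_floor
    have h1 : (R : ℝ) = ((R : ℝ) ^ C2) ^ (1 / (C2 : ℝ)) := by
      rw [← Real.rpow_natCast, ← Real.rpow_mul (by positivity), mul_one_div_cancel hC2pos.ne',
        Real.rpow_one]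
    have h2 : ((R : ℝ) ^ C2) ≤ X := by exact_mod_cast hJX
    have h3 : 1 / (C2 : ℝ) ≤ κ := by
      rw [div_le_iff₀ hC2pos]
      have h4 : 1 / κ ≤ C2 := by
        refine (Nat.le_ceil _).trans ?_
        rw [hC2]
        push_cast
        have : (0 : ℝ) ≤ CF * b := by positivity
        linarith
      rw [div_le_iff₀ hκ] at h4
      linarith
    calc (R : ℝ) = ((R : ℝ) ^ C2) ^ (1 / (C2 : ℝ)) := h1
      _ ≤ (X : ℝ) ^ (1 / (C2 : ℝ)) := Real.rpow_le_rpow (by positivity) h2 (by positivity)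
      _ ≤ (X : ℝ) ^ κ := Real.rpow_le_rpow_of_exponent_le hX10 h3
  have hYR : Y ≤ R ^ L := by
    have h1 : (Y : ℝ) ≤ (R : ℝ) ^ L := by
      calc (Y : ℝ) ≤ (X : ℝ) ^ κ := Nat.floor_le (by positivity)
        _ ≤ (X : ℝ) ^ ((⌈κ⌉₊ : ℕ) : ℝ) := Real.rpow_le_rpow_of_exponent_le hX10 (Nat.le_ceil _)
        _ = (X : ℝ) ^ ⌈κ⌉₊ := Real.rpow_natCast _ _
        _ ≤ ((R : ℝ) ^ (2 * C2)) ^ ⌈κ⌉₊ := by
            have h2 : (X : ℝ) ≤ (R : ℝ) ^ (2 * C2) := by exact_mod_cast hXR.le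
            gcongr
        _ = (R : ℝ) ^ L := by rw [← pow_mul, hLd]
    exact_mod_cast h1
  have hsR : s ≤ R := (show s ≤ J by omega).trans (tower_ge J)
  have hR₀R : R₀ ≤ R := (show R₀ ≤ J by omega).trans (tower_ge J)
  have hR₁R : R₁ ≤ R := (show R₁ ≤ J by omega).trans (tower_ge J)
  have hZY : Sv r 0 Y Z := by
    intro p hp
    rw [Pr_mem] at hp
    have h1 : (p : ℝ) ≤ (X : ℝ) ^ κ := (Nat.cast_le.2 hp.1.2).trans (Nat.floor_le (by positivity))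
    have h2 := hZ p hp.2 h1
    exact ⟨h2.1, h2.2.2⟩
  have hZR : Sv r s R Z := Sv_mono hZY (Nat.zero_le _) hRY
  set V := VV Z s R with hV
  have hVR : 1 / EE s R ^ (2 * r) ≤ V := VV_ge (by omega) hZR
  have hEE1 := one_le_EE s R
  have hV0 : 0 < V := lt_of_lt_of_le (by positivity) hVR
  have hEE : EE s R ≤ cM * Real.log R := hcM s R (by omega) hsR
  have hVm : 1 / (R : ℝ) ≤ V ^ m := by
    have h1 : (1 / EE s R ^ (2 * r)) ^ m ≤ V ^ m := pow_le_pow_left₀ (by positivity) hVR m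
    refine le_trans ?_ h1
    rw [div_pow, one_pow, ← pow_mul]
    apply one_div_le_one_div_of_le (by positivity)
    calc EE s R ^ (2 * r * m) ≤ (cM * Real.log R) ^ (2 * r * m) :=
          pow_le_pow_left₀ (by positivity) hEE _
      _ = cM ^ (2 * r * m) * Real.log R ^ (2 * r * m) := mul_pow _ _ _
      _ ≤ R := hR₁ R hR₁R
  have herr : ((2 : ℝ) ^ 2 ^ J) ^ (CF * b) ≤ X * V ^ m := by
    have h1 : ((2 : ℝ) ^ 2 ^ J) = R := by
      rw [hR]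
      push_cast
      rfl
    rw [h1]
    have h2 : (R : ℝ) ^ (CF * b) * R ≤ X := by
      rw [← pow_succ]
      calc (R : ℝ) ^ (CF * b + 1) ≤ (R : ℝ) ^ C2 := pow_le_pow_right₀ hR10 (by omega)
        _ ≤ X := by exact_mod_cast hJX
    calc (R : ℝ) ^ (CF * b) = ((R : ℝ) ^ (CF * b) * R) * (1 / R) := by field_simp
      _ ≤ X * V ^ m := mul_le_mul h2 hVm (by positivity) hX0.le
  have hD1 : 1 ≤ D := by
    have h1 : (1 : ℝ) ≤ D := (one_le_pow₀ hXX₂).trans hDX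
    exact_mod_cast h1
  have hD10 : (1 : ℝ) ≤ D := by exact_mod_cast hD1
  -- the count
  have hcount := card_le (s := s) (R := R) α β Z T (fun t ht => by
    obtain ⟨h2, h3, h4, h5⟩ := hT t ht
    refine ⟨h2, h3, h4, fun i p hp => ?_⟩
    rw [Pr_mem] at hp
    rw [← add_assoc]
    refine h5 i p hp.2 ?_
    calc (p : ℝ) ≤ Y := by exact_mod_cast hp.1.2.trans hRY
      _ ≤ _ := Nat.floor_le (by positivity))
  have hgav := hX₁ s R X (2 * M₀ * D + 1) hs2 hXX₁ hRX (by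
    refine hDX.trans ?_
    have h1 : D ≤ 2 * M₀ * D + 1 := by
      have : 1 * D ≤ (2 * M₀) * D := Nat.mul_le_mul_right D (by omega)
      omega
    exact_mod_cast h1) Z hZR
  have hsum := sum_coll (K := K) (D := D) (M₀ := M₀) (s := s) (R := R) (Z := Z) α β hαβ hM
    hD1 (by omega) hgav
  have hpair : ∀ d d' : ℕ, ((BB (Om Z fun i => α i * d + β i * d') s R 1 0 A X).card : ℝ) ≤
      3 * X * V ^ m * Coll K Z s R (fun i => α i * d + β i * d') := fun d d' =>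
    pair_count hCF le_rfl hs3 hZR (hs₀ s R hs1 Z hZR (fun i => α i * d + β i * d')).2 herr
  have hden : cD ≤ VV Z R Y := hR₀ R Y hR₀R hYR Z (Sv_mono hZY (Nat.zero_le _) le_rfl)
  have hlow : c₀ ≤ VV Z 0 s := by
    rw [hc₀]
    unfold VV
    apply prod_le_prod
    · intro p _
      positivity
    · intro p hp
      have hp1 := Pr_mem.1 hp
      have h1 : (p : ℝ) ≤ (X : ℝ) ^ κ := by
        calc (p : ℝ) ≤ Y := by exact_mod_cast hp1.1.2.trans (hsR.trans hRY)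
          _ ≤ _ := Nat.floor_le (by positivity)
      have h2 := (hZ p hp1.2 h1).2.1
      have hp0 : (0 : ℝ) < p := by exact_mod_cast hp1.2.pos
      have h3 : ((Z p).card : ℝ) + 1 ≤ p := by exact_mod_cast h2
      rw [div_le_iff₀ hp0, sub_mul, div_mul_cancel₀ _ hp0.ne']
      linarith
  have hVV : (c₀ * cD) * V ≤ VV Z 0 Y := by
    rw [← VV_split Z (Nat.zero_le s) (hsR.trans hRY), ← VV_split Z hsR hRY]
    have h1 : 0 ≤ VV Z 0 s := hc0.le.trans hlow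
    calc (c₀ * cD) * V = c₀ * (V * cD) := by ring
      _ ≤ VV Z 0 s * (V * VV Z R Y) := by gcongr
  have hfin : V ^ m ≤ VV Z 0 Y ^ m / (c₀ * cD) ^ m := by
    rw [le_div_iff₀ (by positivity), ← mul_pow]
    refine pow_le_pow_left₀ (by positivity) ?_ m
    linarith
  have h7 : ∑ d ∈ Icc 1 D, ∑ d' ∈ Icc 1 D,
      ((BB (Om Z fun i => α i * d + β i * d') s R 1 0 A X).card : ℝ) ≤
      3 * X * V ^ m * ∑ d ∈ Icc 1 D, ∑ d' ∈ Icc 1 D,
        Coll K Z s R (fun i => α i * d + β i * d') := by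
    rw [mul_sum]
    refine sum_le_sum fun d _ => ?_
    rw [mul_sum]
    exact sum_le_sum fun d' _ => hpair d d'
  clear hpair
  generalize ∑ d ∈ Icc 1 D, ∑ d' ∈ Icc 1 D, Coll K Z s R (fun i => α i * d + β i * d') = S1 at hsum h7
  have h8 := hcount.trans h7
  clear hcount h7
  have h9 : 3 * X * V ^ m * S1 ≤ 3 * X * V ^ m * ((1 + 3 * (m : ℝ) ^ 2 * M₀) * (D : ℝ) ^ 2) :=
    mul_le_mul_of_nonneg_left hsum (by positivity)
  have h10 : 3 * X * V ^ m * ((1 + 3 * (m : ℝ) ^ 2 * M₀) * (D : ℝ) ^ 2) ≤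
      3 * X * (VV Z 0 Y ^ m / (c₀ * cD) ^ m) * ((1 + 3 * (m : ℝ) ^ 2 * M₀) * (D : ℝ) ^ 2) :=
    mul_le_mul_of_nonneg_right (mul_le_mul_of_nonneg_left hfin (by positivity)) (by positivity)
  refine (h8.trans (h9.trans h10)).trans (le_of_eq ?_)
  ring

end Pool.Agent.Y71.AC
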